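import Mathlib
import Pool.Agent.H90.VoDefs
import Pool.Agent.H90.VoD

namespace Pool.Agent.Results.MP_b3f6df_an.Infinite

open Pool.Agent.H90.Vo

theorem result (n : ℕ) : ¬HasRes zeroMod n := no_res n

end Pool.Agent.Results.MP_b3f6df_an.Infinite
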